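import Mathlib

set_option autoImplicit false

open Polynomial Finset

namespace Pool.Agent.Pf72d10

/-- `HasCost f N`: `f` is a weighted sum of squares whose total support size is at most `N`. -/
def HasCost (f : ℝ[X]) (N : ℕ) : Prop :=
  ∃ (s : ℕ) (c : Fin s → ℝ) (g : Fin s → ℝ[X]),
    f = ∑ i, C (c i) * g i ^ 2 ∧ ∑ i, (g i).support.card ≤ N

lemma HasCost.zero : HasCost 0 0 := ⟨0, Fin.elim0, Fin.elim0, by simp, by simp⟩

lemma HasCost.mono {f : ℝ[X]} {N M : ℕ} (h : HasCost f N) (hNM : N ≤ M) : HasCost f M := by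
  obtain ⟨s, c, g, h1, h2⟩ := h
  exact ⟨s, c, g, h1, h2.trans hNM⟩

lemma HasCost.add {f g : ℝ[X]} {N M : ℕ} (hf : HasCost f N) (hg : HasCost g M) :
    HasCost (f + g) (N + M) := by
  obtain ⟨s, c, p, h1, h2⟩ := hf
  obtain ⟨s', c', p', h1', h2'⟩ := hg
  refine ⟨s + s', Fin.append c c', Fin.append p p', ?_, ?_⟩
  · rw [Fin.sum_univ_add]; simp [Fin.append_left, Fin.append_right, h1, h1']
  · rw [Fin.sum_univ_add]; simp; omega

lemma HasCost.sum {ι : Type*} (S : Finset ι) (f : ι → ℝ[X]) (N : ι → ℕ)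
    (h : ∀ i ∈ S, HasCost (f i) (N i)) : HasCost (∑ i ∈ S, f i) (∑ i ∈ S, N i) := by
  classical
  induction S using Finset.induction_on with
  | empty => simpa using HasCost.zero
  | insert a S ha ih =>
    rw [Finset.sum_insert ha, Finset.sum_insert ha]
    exact (h a (mem_insert_self _ _)).add (ih (fun i hi => h i (mem_insert_of_mem hi)))

lemma HasCost.mul (g h : ℝ[X]) {a b : ℕ} (hg : g.support.card ≤ a) (hh : h.support.card ≤ b) :
    HasCost (g * h) (2 * (a + b)) := by
  refine ⟨2, ![1 / 4, -1 / 4], ![g + h, g - h], ?_, ?_⟩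
  · have h4 : (C (1 / 4 : ℝ) : ℝ[X]) * 4 = 1 := by
      rw [show (4 : ℝ[X]) = C 4 from (map_ofNat C 4).symm, ← C_mul]; norm_num
    have h4' : (C (-1 / 4 : ℝ) : ℝ[X]) = - C (1 / 4) := by
      rw [← C_neg]; norm_num
    simp only [Fin.sum_univ_two, Matrix.cons_val_zero, Matrix.cons_val_one]
    rw [h4']
    linear_combination (- (g * h)) * h4
  · have h1 : (g + h).support.card ≤ a + b :=
      (card_le_card support_add).trans ((card_union_le _ _).trans (by omega))
    have h2 : (g - h).support.card ≤ a + b := by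
      rw [sub_eq_add_neg]
      refine (card_le_card support_add).trans ((card_union_le _ _).trans ?_)
      rw [support_neg]; omega
    simp only [Fin.sum_univ_two, Matrix.cons_val_zero, Matrix.cons_val_one]
    omega

lemma supp_sum {ι : Type*} (S : Finset ι) (f : ι → ℝ[X]) :
    (∑ i ∈ S, f i).support.card ≤ ∑ i ∈ S, (f i).support.card := by
  classical
  induction S using Finset.induction_on with
  | empty => simp
  | insert a S ha ih =>
    rw [Finset.sum_insert ha, Finset.sum_insert ha]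
    exact (card_le_card support_add).trans ((card_union_le _ _).trans (by omega))

lemma supp_C_mul (a : ℝ) (p : ℝ[X]) : (C a * p).support.card ≤ p.support.card := by
  apply card_le_card
  intro n hn
  rw [mem_support_iff, coeff_C_mul] at hn
  rw [mem_support_iff]
  exact right_ne_zero_of_mul hn

variable {E : Type*} [Fintype E]

lemma cost_rank (P Q : E → ℝ[X]) (hP : ∀ x, (P x).support.card ≤ 1)
    (hQ : ∀ x, (Q x).support.card ≤ 1) (u v : E → ℝ) :
    HasCost (∑ x, ∑ z, C (u x * v z) * (P x * Q z)) (4 * Fintype.card E) := by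
  have e : ∑ x, ∑ z, C (u x * v z) * (P x * Q z) = (∑ x, C (u x) * P x) * (∑ z, C (v z) * Q z) := by
    rw [Finset.sum_mul_sum]
    apply sum_congr rfl; intro x _
    apply sum_congr rfl; intro z _
    rw [C_mul]; ring
  rw [e]
  have hu : (∑ x, C (u x) * P x).support.card ≤ Fintype.card E := by
    refine (supp_sum _ _).trans ?_
    refine (Finset.sum_le_card_nsmul _ _ 1 ?_).trans (by simp)
    intro x _
    exact (supp_C_mul _ _).trans (hP x)
  have hv : (∑ x, C (v x) * Q x).support.card ≤ Fintype.card E := by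
    refine (supp_sum _ _).trans ?_
    refine (Finset.sum_le_card_nsmul _ _ 1 ?_).trans (by simp)
    intro x _
    exact (supp_C_mul _ _).trans (hQ x)
  exact (HasCost.mul _ _ hu hv).mono (by omega)

lemma cost_sparse [DecidableEq E] (P Q : E → ℝ[X]) (hP : ∀ x, (P x).support.card ≤ 1)
    (hQ : ∀ x, (Q x).support.card ≤ 1) (M : E → E → ℝ) (R : Finset (E × E))
    (hR : ∀ x z, M x z ≠ 0 → (x, z) ∈ R) :
    HasCost (∑ x, ∑ z, C (M x z) * (P x * Q z)) (2 * Fintype.card E + 2 * R.card) := by
  have e : ∑ x, ∑ z, C (M x z) * (P x * Q z) = ∑ x, P x * ∑ z, C (M x z) * Q z := by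
    apply sum_congr rfl; intro x _
    rw [mul_sum]
    apply sum_congr rfl; intro z _
    ring
  rw [e]
  have h1 : HasCost (∑ x, P x * ∑ z, C (M x z) * Q z)
      (∑ x, 2 * (1 + (univ.filter (fun z => (x, z) ∈ R)).card)) := by
    apply HasCost.sum
    intro x _
    apply HasCost.mul _ _ (hP x)
    refine (supp_sum _ _).trans ?_
    rw [card_filter]
    apply sum_le_sum
    intro z _
    split_ifs with h
    · exact (supp_C_mul _ _).trans (hQ z)
    · have : M x z = 0 := by
        by_contra h'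
        exact h (hR x z h')
      simp [this]
  refine h1.mono ?_
  rw [← mul_sum, sum_add_distrib]
  have h2 : ∑ x, (univ.filter (fun z => (x, z) ∈ R)).card = R.card := by
    have h3 := Finset.card_eq_sum_card_fiberwise (f := Prod.fst) (s := R) (t := univ)
      (by intro a _; simp)
    rw [h3]
    apply sum_congr rfl
    intro x _
    apply Finset.card_bij (fun z _ => (x, z))
    · intro z hz
      simp only [mem_filter, mem_univ, true_and] at hz
      simp [hz]
    · intro a _ b _ hab
      simpa using hab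
    · intro b hb
      simp only [mem_filter] at hb
      refine ⟨b.2, ?_, ?_⟩
      · simp only [mem_filter, mem_univ, true_and]
        rw [← hb.2]; exact hb.1
      · rw [← hb.2]
  rw [h2]
  simp
  omega

lemma form_add (P Q : E → ℝ[X]) (M M' : E → E → ℝ) :
    ∑ x, ∑ z, C (M x z + M' x z) * (P x * Q z)
      = ∑ x, ∑ z, C (M x z) * (P x * Q z) + ∑ x, ∑ z, C (M' x z) * (P x * Q z) := by
  rw [← sum_add_distrib]
  apply sum_congr rfl; intro x _
  rw [← sum_add_distrib]
  apply sum_congr rfl; intro z _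
  rw [C_add]; ring

lemma form_sum (P Q : E → ℝ[X]) {κ : Type*} (K : Finset κ) (M : κ → E → E → ℝ) :
    ∑ x, ∑ z, C (∑ k ∈ K, M k x z) * (P x * Q z)
      = ∑ k ∈ K, ∑ x, ∑ z, C (M k x z) * (P x * Q z) := by
  rw [sum_comm (s := K)]
  apply sum_congr rfl; intro x _
  rw [sum_comm (s := K)]
  apply sum_congr rfl; intro z _
  rw [map_sum, sum_mul]

/-- A matrix which is a sum of `2 * K.card` rank one matrices plus a matrix supported on `R`. -/
lemma cost_main [DecidableEq E] {κ : Type*} (P Q : E → ℝ[X]) (hP : ∀ x, (P x).support.card ≤ 1)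
    (hQ : ∀ x, (Q x).support.card ≤ 1) (K : Finset κ) (u v u' v' : κ → E → ℝ)
    (M T : E → E → ℝ) (R : Finset (E × E))
    (hR : ∀ x z, M x z ≠ 0 → (x, z) ∈ R)
    (hT : ∀ x z, T x z = ∑ k ∈ K, u k x * v k z + ∑ k ∈ K, u' k x * v' k z + M x z) :
    HasCost (∑ x, ∑ z, C (T x z) * (P x * Q z))
      (8 * K.card * Fintype.card E + 2 * Fintype.card E + 2 * R.card) := by
  have e : ∑ x, ∑ z, C (T x z) * (P x * Q z)
      = ∑ k ∈ K, ∑ x, ∑ z, C (u k x * v k z) * (P x * Q z)
        + ∑ k ∈ K, ∑ x, ∑ z, C (u' k x * v' k z) * (P x * Q z)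
        + ∑ x, ∑ z, C (M x z) * (P x * Q z) := by
    simp_rw [hT]
    rw [form_add P Q (fun x z => ∑ k ∈ K, u k x * v k z + ∑ k ∈ K, u' k x * v' k z) M,
      form_add P Q (fun x z => ∑ k ∈ K, u k x * v k z) (fun x z => ∑ k ∈ K, u' k x * v' k z),
      form_sum P Q K (fun k x z => u k x * v k z), form_sum P Q K (fun k x z => u' k x * v' k z)]
  rw [e]
  have h1 : HasCost (∑ k ∈ K, ∑ x, ∑ z, C (u k x * v k z) * (P x * Q z))
      (∑ k ∈ K, 4 * Fintype.card E) :=
    HasCost.sum K _ _ (fun k _ => cost_rank P Q hP hQ (u k) (v k))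
  have h2 : HasCost (∑ k ∈ K, ∑ x, ∑ z, C (u' k x * v' k z) * (P x * Q z))
      (∑ k ∈ K, 4 * Fintype.card E) :=
    HasCost.sum K _ _ (fun k _ => cost_rank P Q hP hQ (u' k) (v' k))
  have h3 := cost_sparse P Q hP hQ M R hR
  refine ((h1.add h2).add h3).mono ?_
  simp only [sum_const, smul_eq_mul]
  nlinarith

end Pool.Agent.Pf72d10
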