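import Mathlib

set_option autoImplicit false

open Finset

namespace Pool.Agent.Pf72d10

/-- three distinct nonzero real nodes -/
noncomputable def nu : Fin 3 → ℝ := ![1, -1, 2]

/-- inverse Vandermonde matrix -/
noncomputable def Wc : Fin 3 → Fin 3 → ℝ :=
  ![![1, 1 / 3, -1 / 3], ![1 / 2, -1 / 2, 0], ![-1 / 2, 1 / 6, 1 / 3]]

lemma nu_ne (j : Fin 3) : nu j ≠ 0 := by
  fin_cases j <;> simp [nu]

lemma Wc_nu (a b : Fin 3) : ∑ j, Wc a j * nu j ^ (b : ℕ) = if a = b then 1 else 0 := by
  fin_cases a <;> fin_cases b <;> simp [Wc, nu, Fin.sum_univ_three] <;> norm_num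

lemma exists_lambda {n : ℕ} (h : (Fin n → Fin 3) → ℝ) :
    ∃ Λ : (Fin n → Fin 3) → ℝ, ∀ y, h y = ∑ θ, Λ θ * ∏ i, nu (θ i) ^ (y i : ℕ) := by
  refine ⟨fun θ => ∑ y, h y * ∏ i, Wc (y i) (θ i), fun y' => ?_⟩
  simp_rw [Finset.sum_mul, mul_assoc, ← Finset.prod_mul_distrib]
  rw [Finset.sum_comm]
  simp_rw [← Finset.mul_sum]
  have key : ∀ y : Fin n → Fin 3, ∑ θ : Fin n → Fin 3, ∏ i, (Wc (y i) (θ i) * nu (θ i) ^ (y' i : ℕ))
      = ∏ i, (∑ j, Wc (y i) j * nu j ^ (y' i : ℕ)) := by
    intro y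
    rw [Finset.prod_univ_sum]
    simp [Fintype.piFinset_univ]
  simp_rw [key, Wc_nu]
  rw [Finset.sum_eq_single y']
  · simp
  · intro y _ hy
    obtain ⟨i, hi⟩ := Function.ne_iff.mp hy
    rw [Finset.prod_eq_zero (Finset.mem_univ i) (by simp [hi]), mul_zero]
  · simp

lemma exists_major {n : ℕ} (θ : Fin n → Fin 3) :
    ∃ j : Fin 3, 3 * (univ.filter (fun i => θ i ≠ j)).card ≤ 2 * n := by
  by_contra hcon
  push Not at hcon
  have hsum : ∑ j : Fin 3, (univ.filter (fun i => θ i = j)).card = n := by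
    have := Finset.card_eq_sum_card_fiberwise (f := θ) (s := (univ : Finset (Fin n))) (t := univ)
      (by intro a _; simp)
    simpa using this.symm
  have hpart : ∀ j : Fin 3, (univ.filter (fun i => θ i = j)).card
      + (univ.filter (fun i => θ i ≠ j)).card = n := by
    intro j
    have := Finset.card_filter_add_card_filter_not (s := (univ : Finset (Fin n))) (fun i => θ i = j)
    simpa using this
  rw [Fin.sum_univ_three] at hsum
  have h0 := hcon 0
  have h1 := hcon 1
  have h2 := hcon 2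
  have p0 := hpart 0
  have p1 := hpart 1
  have p2 := hpart 2
  omega

/-- the character -/
noncomputable def V {n : ℕ} (θ : Fin n → Fin 3) (x : Fin n → Fin 2) : ℝ :=
  ∏ i, nu (θ i) ^ (x i : ℕ)

/-- the common basis functions -/
noncomputable def U {n : ℕ} (j : Fin 3) (W : Finset (Fin n)) (x : Fin n → Fin 2) : ℝ :=
  nu j ^ (∑ i, (x i : ℕ)) * (if ∀ i ∈ W, x i = 0 then 1 else 0)

/-- coefficients -/
noncomputable def lam {n : ℕ} (θ : Fin n → Fin 3) (j : Fin 3) (W : Finset (Fin n)) : ℝ :=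
  (∏ i ∈ W, (1 - nu (θ i) / nu j)) * ∏ i ∈ univ \ W, (nu (θ i) / nu j)

lemma V_expand {n : ℕ} (θ : Fin n → Fin 3) (j : Fin 3) (x : Fin n → Fin 2) :
    V θ x = ∑ W : Finset (Fin n), lam θ j W * U j W x := by
  have h1 : V θ x = nu j ^ (∑ i, (x i : ℕ)) *
      ∏ i, ((1 - nu (θ i) / nu j) * (if x i = 0 then 1 else 0) + nu (θ i) / nu j) := by
    unfold V
    rw [← Finset.prod_pow_eq_pow_sum, ← Finset.prod_mul_distrib]
    apply prod_congr rfl
    intro i _
    have hx : x i = 0 ∨ x i = 1 := by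
      generalize x i = t
      fin_cases t <;> simp
    rcases hx with hx | hx
    · rw [hx]; simp
    · rw [hx]
      have := nu_ne j
      simp
      field_simp
  rw [h1, Finset.prod_add, Finset.mul_sum]
  rw [Finset.powerset_univ]
  apply sum_congr rfl
  intro W _
  unfold lam U
  rw [Finset.prod_mul_distrib]
  have : ∏ i ∈ W, (if x i = 0 then (1 : ℝ) else 0) = if ∀ i ∈ W, x i = 0 then 1 else 0 := by
    split_ifs with hall
    · exact prod_eq_one (fun i hi => if_pos (hall i hi))
    · push Not at hall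
      obtain ⟨i, hi, hne⟩ := hall
      exact prod_eq_zero hi (if_neg hne)
  rw [this]
  ring

lemma lam_zero {n : ℕ} (θ : Fin n → Fin 3) (j : Fin 3) (W : Finset (Fin n))
    (h : ∃ i ∈ W, θ i = j) : lam θ j W = 0 := by
  obtain ⟨i, hi, hij⟩ := h
  unfold lam
  rw [Finset.prod_eq_zero hi, zero_mul]
  rw [hij, div_self (nu_ne j), sub_self]

/-- low-degree part -/
noncomputable def A {n : ℕ} (D : ℕ) (θ : Fin n → Fin 3) (j : Fin 3) (x : Fin n → Fin 2) : ℝ :=
  ∑ W ∈ univ.filter (fun W : Finset (Fin n) => W.card ≤ D), lam θ j W * U j W x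

lemma B_zero {n : ℕ} (D : ℕ) (θ : Fin n → Fin 3) (j : Fin 3) (x : Fin n → Fin 2)
    (h : V θ x - A D θ j x ≠ 0) :
    D + 1 ≤ (univ.filter (fun i => θ i ≠ j ∧ x i = 0)).card := by
  by_contra hlt
  push Not at hlt
  apply h
  rw [V_expand θ j x]
  unfold A
  rw [sub_eq_zero]
  symm
  apply Finset.sum_subset (filter_subset _ _)
  intro W _ hW
  simp only [mem_filter, mem_univ, true_and, not_le] at hW
  by_cases hex : ∃ i ∈ W, θ i = j
  · rw [lam_zero θ j W hex, zero_mul]
  · by_cases hx : ∀ i ∈ W, x i = 0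
    · exfalso
      have : W ⊆ univ.filter (fun i => θ i ≠ j ∧ x i = 0) := by
        intro i hi
        simp only [mem_filter, mem_univ, true_and]
        exact ⟨fun hh => hex ⟨i, hi, hh⟩, hx i hi⟩
      have := card_le_card this
      omega
    · unfold U
      rw [if_neg hx]; simp

/-- The size of the union of the supports. -/
def cnt {n : ℕ} (x z : Fin n → Fin 2) : ℕ := (univ.filter (fun i => ¬ (x i = 0 ∧ z i = 0))).card

lemma cnt_bound {n : ℕ} (D : ℕ) (θ : Fin n → Fin 3) (j : Fin 3) (x z : Fin n → Fin 2)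
    (hj : 3 * (univ.filter (fun i => θ i ≠ j)).card ≤ 2 * n)
    (hx : D + 1 ≤ (univ.filter (fun i => θ i ≠ j ∧ x i = 0)).card)
    (hz : D + 1 ≤ (univ.filter (fun i => θ i ≠ j ∧ z i = 0)).card) :
    3 * cnt x z + 6 * D ≤ 5 * n := by
  classical
  -- complement count
  have h1 : (univ.filter (fun i => x i = 0 ∧ z i = 0)).card + cnt x z = n := by
    have := Finset.card_filter_add_card_filter_not (s := (univ : Finset (Fin n)))
      (fun i => x i = 0 ∧ z i = 0)
    simpa [cnt] using this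
  have h2 : (univ.filter (fun i => θ i ≠ j ∧ x i = 0)).card
      + (univ.filter (fun i => θ i ≠ j ∧ z i = 0)).card
      ≤ (univ.filter (fun i => θ i ≠ j)).card + (univ.filter (fun i => x i = 0 ∧ z i = 0)).card := by
    rw [← Finset.card_union_add_card_inter]
    apply Nat.add_le_add
    · apply card_le_card
      intro i hi
      simp only [mem_union, mem_filter, mem_univ, true_and] at hi ⊢
      tauto
    · apply card_le_card
      intro i hi
      simp only [mem_inter, mem_filter, mem_univ, true_and] at hi ⊢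
      tauto
  omega

/-- Non-rigidity of matrices `h (x + z)` on `{0,1}^n`. -/
theorem nonrigid {n : ℕ} (D : ℕ) (h : (Fin n → Fin 3) → ℝ) (T : (Fin n → Fin 2) → (Fin n → Fin 2) → ℝ)
    (hT : ∀ x z, ∀ y : Fin n → Fin 3, (∀ i, (y i : ℕ) = (x i : ℕ) + (z i : ℕ)) → T x z = h y) :
    ∃ (u v u' v' : Fin 3 × Finset (Fin n) → (Fin n → Fin 2) → ℝ)
      (M : (Fin n → Fin 2) → (Fin n → Fin 2) → ℝ),
      (∀ x z, M x z ≠ 0 → 3 * cnt x z + 6 * D ≤ 5 * n) ∧
      ∀ x z, T x z = ∑ k ∈ (univ : Finset (Fin 3)) ×ˢ univ.filter (fun W : Finset (Fin n) => W.card ≤ D),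
          u k x * v k z
        + ∑ k ∈ (univ : Finset (Fin 3)) ×ˢ univ.filter (fun W : Finset (Fin n) => W.card ≤ D),
          u' k x * v' k z
        + M x z := by
  classical
  obtain ⟨Λ, hΛ⟩ := exists_lambda h
  choose J hJ using (fun θ : Fin n → Fin 3 => exists_major θ)
  let B : (Fin n → Fin 3) → (Fin n → Fin 2) → ℝ := fun θ x => V θ x - A D θ (J θ) x
  refine ⟨fun k x => U k.1 k.2 x,
    fun k z => ∑ θ, (if J θ = k.1 then Λ θ * lam θ k.1 k.2 * V θ z else 0),
    fun k x => ∑ θ, (if J θ = k.1 then Λ θ * lam θ k.1 k.2 * B θ x else 0),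
    fun k z => U k.1 k.2 z,
    fun x z => ∑ θ, Λ θ * (B θ x * B θ z), ?_, ?_⟩
  · intro x z hM
    obtain ⟨θ, _, hθ⟩ := Finset.exists_ne_zero_of_sum_ne_zero hM
    have hB : B θ x * B θ z ≠ 0 := right_ne_zero_of_mul hθ
    have hBx := left_ne_zero_of_mul hB
    have hBz := right_ne_zero_of_mul hB
    exact cnt_bound D θ (J θ) x z (hJ θ) (B_zero D θ (J θ) x hBx) (B_zero D θ (J θ) z hBz)
  · intro x z
    -- first rank part
    have e1 : ∑ k ∈ (univ : Finset (Fin 3)) ×ˢ univ.filter (fun W : Finset (Fin n) => W.card ≤ D),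
        U k.1 k.2 x * ∑ θ, (if J θ = k.1 then Λ θ * lam θ k.1 k.2 * V θ z else 0)
        = ∑ θ, Λ θ * (A D θ (J θ) x * V θ z) := by
      simp_rw [mul_sum]
      rw [sum_comm]
      apply sum_congr rfl
      intro θ _
      rw [Finset.sum_product]
      rw [Finset.sum_eq_single (J θ)]
      · unfold A
        rw [sum_mul, mul_sum]
        apply sum_congr rfl
        intro W _
        rw [if_pos rfl]; ring
      · intro j _ hj
        apply sum_eq_zero
        intro W _
        rw [if_neg (Ne.symm hj), mul_zero]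
      · intro hh; exact absurd (mem_univ _) hh
    have e2 : ∑ k ∈ (univ : Finset (Fin 3)) ×ˢ univ.filter (fun W : Finset (Fin n) => W.card ≤ D),
        (∑ θ, (if J θ = k.1 then Λ θ * lam θ k.1 k.2 * B θ x else 0)) * U k.1 k.2 z
        = ∑ θ, Λ θ * (B θ x * A D θ (J θ) z) := by
      simp_rw [sum_mul]
      rw [sum_comm]
      apply sum_congr rfl
      intro θ _
      rw [Finset.sum_product]
      rw [Finset.sum_eq_single (J θ)]
      · unfold A
        rw [mul_sum, mul_sum]
        apply sum_congr rfl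
        intro W _
        rw [if_pos rfl]; ring
      · intro j _ hj
        apply sum_eq_zero
        intro W _
        rw [if_neg (Ne.symm hj), zero_mul]
      · intro hh; exact absurd (mem_univ _) hh
    rw [e1, e2]
    have hlt : ∀ i, (x i : ℕ) + (z i : ℕ) < 3 := by
      intro i
      have := (x i).isLt
      have := (z i).isLt
      omega
    rw [hT x z (fun i => ⟨(x i : ℕ) + (z i : ℕ), hlt i⟩) (fun i => rfl), hΛ]
    rw [← sum_add_distrib, ← sum_add_distrib]
    apply sum_congr rfl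
    intro θ _
    have e3 : ∏ i, nu (θ i) ^ ((x i : ℕ) + (z i : ℕ)) = V θ x * V θ z := by
      unfold V
      rw [← prod_mul_distrib]
      apply prod_congr rfl
      intro i _
      rw [pow_add]
    simp only [e3]
    simp only [B]
    ring

end Pool.Agent.Pf72d10
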