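import Mathlib
import Pool.Agent.Lib.Pf72d10.Rigid

set_option autoImplicit false

open Finset

namespace Pool.Agent.Pf72d10

lemma count_small (n D : ℕ) (r : ℝ) (hr0 : 0 < r) (hr1 : r ≤ 1) :
    ((univ.filter (fun W : Finset (Fin n) => W.card ≤ D)).card : ℝ) * r ^ D ≤ (1 + r) ^ n := by
  have h1 : (1 + r) ^ n = ∑ W : Finset (Fin n), r ^ W.card := by
    have := Finset.sum_pow_mul_eq_add_pow r 1 (univ : Finset (Fin n))
    simp only [one_pow, mul_one, Finset.powerset_univ, card_univ, Fintype.card_fin] at this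
    rw [this, add_comm]
  rw [h1, card_eq_sum_ones, Nat.cast_sum, sum_mul]
  refine (sum_le_sum ?_).trans (sum_le_sum_of_subset_of_nonneg (subset_univ _)
    (fun i _ _ => by positivity))
  intro W hW
  simp only [mem_filter, mem_univ, true_and] at hW
  simp only [Nat.cast_one, one_mul]
  exact pow_le_pow_of_le_one hr0.le hr1 hW

lemma count_pairs (n D : ℕ) (r : ℝ) (hr0 : 0 < r) (hr1 : r ≤ 1) :
    ((univ.filter (fun p : (Fin n → Fin 2) × (Fin n → Fin 2) => cnt p.1 p.2 ≤ D)).card : ℝ) * r ^ D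
      ≤ (1 + 3 * r) ^ n := by
  have h1 : (1 + 3 * r) ^ n = ∑ p : (Fin n → Fin 2) × (Fin n → Fin 2), r ^ (cnt p.1 p.2) := by
    rw [Fintype.sum_prod_type]
    have e1 : ∀ x z : Fin n → Fin 2, r ^ (cnt x z) = ∏ i, (if x i = 0 ∧ z i = 0 then 1 else r) := by
      intro x z
      unfold cnt
      rw [← Finset.prod_const, Finset.prod_filter]
      apply prod_congr rfl
      intro i _
      by_cases hh : x i = 0 ∧ z i = 0
      · simp [hh]
      · rw [if_pos hh, if_neg hh]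
    simp_rw [e1]
    have e2 : ∀ x : Fin n → Fin 2, ∑ z : Fin n → Fin 2, ∏ i, (if x i = 0 ∧ z i = 0 then (1 : ℝ) else r)
        = ∏ i, ∑ b : Fin 2, (if x i = 0 ∧ b = 0 then (1 : ℝ) else r) := by
      intro x
      rw [Finset.prod_univ_sum]
      simp [Fintype.piFinset_univ]
    simp_rw [e2]
    have e3 : ∑ x : Fin n → Fin 2, ∏ i, ∑ b : Fin 2, (if x i = 0 ∧ b = 0 then (1 : ℝ) else r)
        = ∏ _i : Fin n, ∑ a : Fin 2, ∑ b : Fin 2, (if a = 0 ∧ b = 0 then (1 : ℝ) else r) := by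
      rw [Finset.prod_univ_sum]
      simp [Fintype.piFinset_univ]
    rw [e3, prod_const, card_univ, Fintype.card_fin]
    congr 1
    simp [Fin.sum_univ_two]
    ring
  rw [h1, card_eq_sum_ones, Nat.cast_sum, sum_mul]
  refine (sum_le_sum ?_).trans (sum_le_sum_of_subset_of_nonneg (subset_univ _)
    (fun i _ _ => by positivity))
  intro W hW
  simp only [mem_filter, mem_univ, true_and] at hW
  simp only [Nat.cast_one, one_mul]
  exact pow_le_pow_of_le_one hr0.le hr1 hW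

lemma sum_digits {M : Type*} [AddCommMonoid M] (n : ℕ) (ψ : ℕ → M) :
    ∑ k ∈ range (4 ^ n), ψ k = ∑ x : Fin n → Fin 2, ∑ z : Fin n → Fin 2,
      ψ (∑ i, (x i : ℕ) * 4 ^ (i : ℕ) + 2 * ∑ i, (z i : ℕ) * 4 ^ (i : ℕ)) := by
  rw [← Fin.sum_univ_eq_sum_range, ← (finFunctionFinEquiv (m := 4) (n := n)).sum_comp]
  rw [← Fintype.sum_prod_type']
  let e : ((Fin n → Fin 2) × (Fin n → Fin 2)) ≃ (Fin n → Fin 4) :=
    (Equiv.prodComm _ _).trans ((Equiv.arrowProdEquivProdArrow (Fin n) (fun _ => Fin 2) (fun _ => Fin 2)).symm.trans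
      (Equiv.arrowCongr (Equiv.refl (Fin n)) (finProdFinEquiv (m := 2) (n := 2))))
  rw [← e.sum_comp]
  apply sum_congr rfl
  intro p _
  congr 1
  rw [finFunctionFinEquiv_apply_val]
  rw [mul_sum, ← sum_add_distrib]
  apply sum_congr rfl
  intro i _
  have : ((e p i : Fin 4) : ℕ) = (p.1 i : ℕ) + 2 * (p.2 i : ℕ) := by
    rfl
  rw [this]; ring

end Pool.Agent.Pf72d10
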