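import Mathlib

set_option autoImplicit false

open Polynomial Finset

namespace Pool.Agent.Pf72d10

/-- The partial-theta type polynomial with signs. -/
noncomputable def F (K : ℕ) : ℝ[X] :=
  ∑ k ∈ range K, C ((-1) ^ k * (1 / 4 : ℝ) ^ (k ^ 2)) * X ^ k

/-- the normalised term -/
noncomputable def G (j k : ℕ) : ℝ := (1 / 4 : ℝ) ^ (j ^ 2) * 4 ^ (2 * k * j) * (1 / 4 : ℝ) ^ (k ^ 2)

lemma G_eq (j k d : ℕ) (h : d ^ 2 + 2 * k * j = j ^ 2 + k ^ 2) : G j k = (1 / 4 : ℝ) ^ (d ^ 2) := by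
  unfold G
  have h1 : (1 / 4 : ℝ) ^ (j ^ 2) * (1 / 4 : ℝ) ^ (k ^ 2) = (1 / 4 : ℝ) ^ (d ^ 2) * (1 / 4 : ℝ) ^ (2 * k * j) := by
    rw [← pow_add, ← pow_add, h]
  have h2 : (1 / 4 : ℝ) ^ (2 * k * j) * 4 ^ (2 * k * j) = 1 := by
    rw [← mul_pow]; norm_num
  calc (1 / 4 : ℝ) ^ (j ^ 2) * 4 ^ (2 * k * j) * (1 / 4 : ℝ) ^ (k ^ 2)
      = ((1 / 4 : ℝ) ^ (j ^ 2) * (1 / 4 : ℝ) ^ (k ^ 2)) * 4 ^ (2 * k * j) := by ring
    _ = (1 / 4 : ℝ) ^ (d ^ 2) * ((1 / 4 : ℝ) ^ (2 * k * j) * 4 ^ (2 * k * j)) := by rw [h1]; ring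
    _ = _ := by rw [h2, mul_one]

lemma G_self (k : ℕ) : G k k = 1 := by
  rw [G_eq k k 0 (by ring)]; norm_num

lemma G_nonneg (j k : ℕ) : 0 ≤ G j k := by unfold G; positivity

lemma G_le (j k d : ℕ) (h : j + d = k ∨ k + d = j) : G j k ≤ (1 / 4 : ℝ) ^ d := by
  have h' : d ^ 2 + 2 * k * j = j ^ 2 + k ^ 2 := by
    rcases h with h | h
    · subst h; ring
    · subst h; ring
  rw [G_eq j k d h']
  apply pow_le_pow_of_le_one (by norm_num) (by norm_num)
  nlinarith [Nat.zero_le d, Nat.zero_le (d-1), sq_nonneg (d : ℤ), Nat.le_self_pow (two_ne_zero) d]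

lemma left_sum (k : ℕ) : ∑ j ∈ range k, (1 / 4 : ℝ) ^ (k - j) ≤ 1 / 3 := by
  induction k with
  | zero => norm_num
  | succ k ih =>
    rw [sum_range_succ]
    have : ∑ j ∈ range k, (1 / 4 : ℝ) ^ (k + 1 - j) = (1 / 4) * ∑ j ∈ range k, (1 / 4 : ℝ) ^ (k - j) := by
      rw [mul_sum]
      apply sum_congr rfl
      intro j hj
      have : j < k := mem_range.mp hj
      rw [show k + 1 - j = (k - j) + 1 by omega, pow_succ]; ring
    rw [this]
    simp only [Nat.add_sub_cancel_left, pow_one]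
    linarith

lemma right_sum (m : ℕ) : ∑ i ∈ range m, (1 / 4 : ℝ) ^ (i + 1) ≤ 1 / 3 := by
  have h : ∀ m : ℕ, ∑ i ∈ range m, (1 / 4 : ℝ) ^ (i + 1) = 1 / 3 - (1 / 3) * (1 / 4) ^ m := by
    intro m
    induction m with
    | zero => norm_num
    | succ m ih => rw [sum_range_succ, ih]; ring
  rw [h]
  have : (0 : ℝ) < (1 / 4) ^ m := by positivity
  linarith

lemma eval_sign (K k : ℕ) (hk : k < K) : 0 < (-1 : ℝ) ^ k * (F K).eval (4 ^ (2 * k)) := by
  have hpos : (0 : ℝ) < (1 / 4 : ℝ) ^ (k ^ 2) := by positivity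
  suffices h : 0 < (1 / 4 : ℝ) ^ (k ^ 2) * ((-1 : ℝ) ^ k * (F K).eval (4 ^ (2 * k))) by
    exact (mul_pos_iff_of_pos_left hpos).mp h
  have e1 : (1 / 4 : ℝ) ^ (k ^ 2) * ((-1 : ℝ) ^ k * (F K).eval (4 ^ (2 * k)))
      = ∑ j ∈ range K, (-1 : ℝ) ^ (k + j) * G j k := by
    unfold F G
    rw [eval_finsetSum, mul_sum, mul_sum]
    apply sum_congr rfl
    intro j _
    simp only [eval_mul, eval_C, eval_pow, eval_X]
    rw [← pow_mul, pow_add]
    ring
  rw [e1]
  -- split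
  have e2 : ∑ j ∈ range K, (-1 : ℝ) ^ (k + j) * G j k
      = ∑ j ∈ range k, (-1 : ℝ) ^ (k + j) * G j k + (G k k)
        + ∑ i ∈ range (K - (k + 1)), (-1 : ℝ) ^ (k + (k + 1 + i)) * G (k + 1 + i) k := by
    obtain ⟨m, rfl⟩ : ∃ m, K = k + 1 + m := ⟨K - (k + 1), by omega⟩
    rw [sum_range_add, sum_range_succ]
    have : (-1 : ℝ) ^ (k + k) = 1 := by
      rw [← two_mul, pow_mul]; norm_num
    rw [this, one_mul]
    congr 2
    simp
  rw [e2, G_self]
  have hl : |∑ j ∈ range k, (-1 : ℝ) ^ (k + j) * G j k| ≤ 1 / 3 := by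
    refine (abs_sum_le_sum_abs _ _).trans ((sum_le_sum ?_).trans (left_sum k))
    intro j hj
    have : j < k := mem_range.mp hj
    rw [abs_mul, abs_pow, abs_neg, abs_one, one_pow, one_mul, abs_of_nonneg (G_nonneg _ _)]
    exact G_le j k (k - j) (Or.inl (by omega))
  have hr : |∑ i ∈ range (K - (k + 1)), (-1 : ℝ) ^ (k + (k + 1 + i)) * G (k + 1 + i) k| ≤ 1 / 3 := by
    refine (abs_sum_le_sum_abs _ _).trans ((sum_le_sum ?_).trans (right_sum _))
    intro i _
    rw [abs_mul, abs_pow, abs_neg, abs_one, one_pow, one_mul, abs_of_nonneg (G_nonneg _ _)]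
    exact G_le (k + 1 + i) k (i + 1) (Or.inr (by omega))
  have hl' := (abs_le.mp hl).1
  have hr' := (abs_le.mp hr).1
  linarith

lemma F_ne_zero (K : ℕ) (hK : 0 < K) : F K ≠ 0 := by
  intro h
  have := eval_sign K 0 hK
  rw [h] at this
  simp at this

lemma exists_root (K k : ℕ) (hk : k + 1 < K) :
    ∃ r : ℝ, 4 ^ (2 * k) < r ∧ r < 4 ^ (2 * (k + 1)) ∧ (F K).eval r = 0 := by
  have h1 := eval_sign K k (by omega)
  have h2 := eval_sign K (k + 1) hk
  have hlt : (4 : ℝ) ^ (2 * k) < 4 ^ (2 * (k + 1)) := pow_lt_pow_right₀ (by norm_num) (by omega)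
  -- g = (-1)^k f : positive at left, negative at right
  let g : ℝ → ℝ := fun x => (-1 : ℝ) ^ k * (F K).eval x
  have hg : ContinuousOn g (Set.Icc (4 ^ (2 * k)) (4 ^ (2 * (k + 1)))) := by
    apply Continuous.continuousOn
    exact continuous_const.mul (F K).continuous
  have hg2 : g (4 ^ (2 * (k + 1))) < 0 := by
    have : g (4 ^ (2 * (k + 1))) = - ((-1 : ℝ) ^ (k + 1) * (F K).eval (4 ^ (2 * (k + 1)))) := by
      simp only [g]; rw [pow_succ]; ring
    rw [this]; linarith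
  obtain ⟨r, hr, hr0⟩ := intermediate_value_Ioo' hlt.le hg (show (0 : ℝ) ∈ Set.Ioo _ _ from ⟨hg2, h1⟩)
  refine ⟨r, hr.1, hr.2, ?_⟩
  have : (-1 : ℝ) ^ k * (F K).eval r = 0 := hr0
  rcases mul_eq_zero.mp this with h | h
  · exact absurd h (pow_ne_zero _ (by norm_num))
  · exact h

lemma F_roots (K : ℕ) : K - 1 ≤ (F K).roots.toFinset.card := by
  classical
  rcases Nat.eq_zero_or_pos K with rfl | hK
  · simp
  have hne := F_ne_zero K hK
  choose! r hr1 hr2 hr3 using fun (k : ℕ) (hk : k + 1 < K) => exists_root K k hk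
  have : (range (K - 1)).card ≤ (F K).roots.toFinset.card := by
    apply Finset.card_le_card_of_injOn r
    · intro k hk
      have hk' : k + 1 < K := by
        have : k < K - 1 := by simpa using hk
        omega
      simp only [Multiset.mem_toFinset, mem_coe]
      rw [mem_roots hne]
      exact hr3 k hk'
    · intro a ha b hb hab
      have ha' : a + 1 < K := by
        have : a < K - 1 := by simpa using ha
        omega
      have hb' : b + 1 < K := by
        have : b < K - 1 := by simpa using hb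
        omega
      by_contra hne'
      rcases lt_or_gt_of_ne hne' with hlt | hlt
      · have : (4 : ℝ) ^ (2 * (a + 1)) ≤ 4 ^ (2 * b) := pow_le_pow_right₀ (by norm_num) (by omega)
        have := hr2 a ha'
        have := hr1 b hb'
        linarith
      · have : (4 : ℝ) ^ (2 * (b + 1)) ≤ 4 ^ (2 * a) := pow_le_pow_right₀ (by norm_num) (by omega)
        have := hr2 b hb'
        have := hr1 a ha'
        linarith
  simpa using this

end Pool.Agent.Pf72d10
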