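import Mathlib
import Pool.Agent.Lib.Pf72d10.Roots
import Pool.Agent.Lib.Pf72d10.Cost
import Pool.Agent.Lib.Pf72d10.Rigid
import Pool.Agent.Lib.Pf72d10.Count

set_option autoImplicit false

open Polynomial Finset

namespace Pool.Agent.Pf72d10

/-- the integer with base-4 digits `x i ∈ {0,1}` -/
def ax {n : ℕ} (x : Fin n → Fin 2) : ℕ := ∑ i, (x i : ℕ) * 4 ^ (i : ℕ)

noncomputable def P {n : ℕ} (x : Fin n → Fin 2) : ℝ[X] :=
  C ((-1) ^ (ax x) * ((1 / 4 : ℝ) ^ (ax x ^ 2))⁻¹) * X ^ (ax x)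

noncomputable def Q {n : ℕ} (z : Fin n → Fin 2) : ℝ[X] :=
  C ((1 / 4 : ℝ) ^ (2 * ax z ^ 2)) * X ^ (2 * ax z)

noncomputable def T {n : ℕ} (x z : Fin n → Fin 2) : ℝ := (1 / 4 : ℝ) ^ (2 * (ax x + ax z) ^ 2)

lemma P_supp {n : ℕ} (x : Fin n → Fin 2) : (P x).support.card ≤ 1 := card_support_C_mul_X_pow_le_one
lemma Q_supp {n : ℕ} (x : Fin n → Fin 2) : (Q x).support.card ≤ 1 := card_support_C_mul_X_pow_le_one

lemma F_eq (n : ℕ) : F (4 ^ n) = ∑ x : Fin n → Fin 2, ∑ z : Fin n → Fin 2, C (T x z) * (P x * Q z) := by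
  unfold F
  rw [sum_digits n (fun k => C ((-1) ^ k * (1 / 4 : ℝ) ^ (k ^ 2)) * X ^ k)]
  apply sum_congr rfl; intro x _
  apply sum_congr rfl; intro z _
  change C ((-1) ^ (ax x + 2 * ax z) * (1 / 4 : ℝ) ^ ((ax x + 2 * ax z) ^ 2)) * X ^ (ax x + 2 * ax z) = _
  unfold P Q T
  generalize ax x = a
  generalize ax z = b
  have e1 : ((-1 : ℝ) ^ (a + 2 * b) * (1 / 4 : ℝ) ^ ((a + 2 * b) ^ 2))
      = (1 / 4 : ℝ) ^ (2 * (a + b) ^ 2) * ((-1) ^ a * ((1 / 4 : ℝ) ^ (a ^ 2))⁻¹) * (1 / 4 : ℝ) ^ (2 * b ^ 2) := by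
    have h1 : (-1 : ℝ) ^ (a + 2 * b) = (-1) ^ a := by
      rw [pow_add, pow_mul]; norm_num
    have h2 : (1 / 4 : ℝ) ^ ((a + 2 * b) ^ 2) * (1 / 4 : ℝ) ^ (a ^ 2)
        = (1 / 4 : ℝ) ^ (2 * (a + b) ^ 2) * (1 / 4 : ℝ) ^ (2 * b ^ 2) := by
      rw [← pow_add, ← pow_add]; congr 1; ring
    have h3 : ((1 / 4 : ℝ) ^ (a ^ 2)) ≠ 0 := by positivity
    rw [h1]
    field_simp
    linear_combination h2
  rw [e1]
  simp only [C_mul, pow_add]
  ring

lemma T_eq {n : ℕ} (x z : Fin n → Fin 2) (y : Fin n → Fin 3)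
    (h : ∀ i, (y i : ℕ) = (x i : ℕ) + (z i : ℕ)) :
    T x z = (1 / 4 : ℝ) ^ (2 * (∑ i, (y i : ℕ) * 4 ^ (i : ℕ)) ^ 2) := by
  unfold T ax
  rw [← sum_add_distrib]
  congr 3
  apply sum_congr rfl
  intro i _
  rw [h i]; ring

/-- cost of `F (4^(48m))` -/
lemma F_cost (m : ℕ) : HasCost (F (4 ^ (48 * m)))
    (24 * (univ.filter (fun W : Finset (Fin (48 * m)) => W.card ≤ 23 * m)).card * 2 ^ (48 * m)
      + 2 * 2 ^ (48 * m)
      + 2 * (univ.filter (fun p : (Fin (48 * m) → Fin 2) × (Fin (48 * m) → Fin 2) =>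
          cnt p.1 p.2 ≤ 34 * m)).card) := by
  classical
  obtain ⟨u, v, u', v', M, hM, hT⟩ := nonrigid (23 * m)
    (fun y : Fin (48 * m) → Fin 3 => (1 / 4 : ℝ) ^ (2 * (∑ i, (y i : ℕ) * 4 ^ (i : ℕ)) ^ 2))
    T T_eq
  rw [F_eq]
  have := cost_main P Q P_supp Q_supp _ u v u' v' M T
    (univ.filter (fun p : (Fin (48 * m) → Fin 2) × (Fin (48 * m) → Fin 2) => cnt p.1 p.2 ≤ 34 * m))
    (by
      intro x z hxz
      have := hM x z hxz
      simp only [mem_filter, mem_univ, true_and]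
      omega) hT
  refine this.mono ?_
  rw [card_product]
  simp only [card_univ, Fintype.card_fin, Fintype.card_pi, prod_const]
  apply le_of_eq
  ring

lemma num1 : (1 + 23 / 25 : ℝ) ^ 48 ≤ 2 ^ 48 * (97 / 100) * (23 / 25) ^ 23 := by norm_num
lemma num2 : (1 + 3 * (17 / 21) : ℝ) ^ 48 ≤ 4 ^ 48 * (97 / 100) * (17 / 21) ^ 34 := by norm_num
lemma num3 : (2 : ℝ) ^ 48 ≤ 4 ^ 48 * (97 / 100) := by norm_num

lemma total_bound (m : ℕ) :
    ((24 * (univ.filter (fun W : Finset (Fin (48 * m)) => W.card ≤ 23 * m)).card * 2 ^ (48 * m)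
      + 2 * 2 ^ (48 * m)
      + 2 * (univ.filter (fun p : (Fin (48 * m) → Fin 2) × (Fin (48 * m) → Fin 2) =>
          cnt p.1 p.2 ≤ 34 * m)).card : ℕ) : ℝ) ≤ 28 * (97 / 100) ^ m * 4 ^ (48 * m) := by
  have h1 := count_small (48 * m) (23 * m) (23 / 25) (by norm_num) (by norm_num)
  have h2 := count_pairs (48 * m) (34 * m) (17 / 21) (by norm_num) (by norm_num)
  have g1 : (1 + 23 / 25 : ℝ) ^ (48 * m) ≤ (2 ^ (48 * m) * (97 / 100) ^ m) * (23 / 25) ^ (23 * m) := by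
    rw [pow_mul, pow_mul, pow_mul, ← mul_pow, ← mul_pow]
    exact pow_le_pow_left₀ (by norm_num) num1 m
  have g2 : (1 + 3 * (17 / 21) : ℝ) ^ (48 * m) ≤ (4 ^ (48 * m) * (97 / 100) ^ m) * (17 / 21) ^ (34 * m) := by
    rw [pow_mul, pow_mul, pow_mul, ← mul_pow, ← mul_pow]
    exact pow_le_pow_left₀ (by norm_num) num2 m
  have g3 : (2 : ℝ) ^ (48 * m) ≤ 4 ^ (48 * m) * (97 / 100) ^ m := by
    rw [pow_mul, pow_mul, ← mul_pow]
    exact pow_le_pow_left₀ (by norm_num) num3 m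
  have k1 : ((univ.filter (fun W : Finset (Fin (48 * m)) => W.card ≤ 23 * m)).card : ℝ)
      ≤ 2 ^ (48 * m) * (97 / 100) ^ m :=
    le_of_mul_le_mul_right (h1.trans g1) (by positivity)
  have k2 : ((univ.filter (fun p : (Fin (48 * m) → Fin 2) × (Fin (48 * m) → Fin 2) =>
          cnt p.1 p.2 ≤ 34 * m)).card : ℝ) ≤ 4 ^ (48 * m) * (97 / 100) ^ m :=
    le_of_mul_le_mul_right (h2.trans g2) (by positivity)
  have e4 : (2 : ℝ) ^ (48 * m) * 2 ^ (48 * m) = 4 ^ (48 * m) := by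
    rw [← mul_pow]; norm_num
  push_cast
  have k1' : ((univ.filter (fun W : Finset (Fin (48 * m)) => W.card ≤ 23 * m)).card : ℝ) * 2 ^ (48 * m)
      ≤ 4 ^ (48 * m) * (97 / 100) ^ m := by
    calc _ ≤ (2 ^ (48 * m) * (97 / 100) ^ m) * (2 : ℝ) ^ (48 * m) :=
          mul_le_mul_of_nonneg_right k1 (by positivity)
      _ = _ := by rw [← e4]; ring
  nlinarith [k1', k2, g3]

/-- There is no constant `κ` such that the number of distinct real roots is at most `κ` times the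
support-sum of every sum-of-squares representation. -/
theorem no_bound (κ : ℝ) (hκ : 0 < κ) :
    ∃ (f : ℝ[X]) (s : ℕ) (c : Fin s → ℝ) (g : Fin s → ℝ[X]), f ≠ 0 ∧
      f = ∑ i, C (c i) * g i ^ 2 ∧
      κ * ((∑ i, (g i).support.card : ℕ) : ℝ) < (f.roots.toFinset.card : ℝ) := by
  obtain ⟨m, hm⟩ := exists_pow_lt_of_lt_one (show (0 : ℝ) < 1 / (56 * κ) by positivity)
    (show (97 / 100 : ℝ) < 1 by norm_num)
  have hm0 : 4 ≤ 4 ^ (48 * (m + 1)) := by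
    calc 4 = 4 ^ 1 := by norm_num
      _ ≤ 4 ^ (48 * (m + 1)) := Nat.pow_le_pow_right (by norm_num) (by omega)
  obtain ⟨s, c, g, hf, hN⟩ := F_cost (m + 1)
  refine ⟨F (4 ^ (48 * (m + 1))), s, c, g, F_ne_zero _ (by positivity), hf, ?_⟩
  have hb := total_bound (m + 1)
  have hN' : ((∑ i, (g i).support.card : ℕ) : ℝ) ≤ 28 * (97 / 100) ^ (m + 1) * 4 ^ (48 * (m + 1)) :=
    le_trans (by exact_mod_cast hN) hb
  have hroots := F_roots (4 ^ (48 * (m + 1)))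
  have hroots' : (4 : ℝ) ^ (48 * (m + 1)) / 2 < ((F (4 ^ (48 * (m + 1)))).roots.toFinset.card : ℝ) := by
    have h1 : 4 ^ (48 * (m + 1)) ≤ (F (4 ^ (48 * (m + 1)))).roots.toFinset.card + 1 := by omega
    have h2 : (4 : ℝ) ^ (48 * (m + 1)) ≤ ((F (4 ^ (48 * (m + 1)))).roots.toFinset.card : ℝ) + 1 := by
      exact_mod_cast h1
    have h3 : (4 : ℝ) ≤ 4 ^ (48 * (m + 1)) := by exact_mod_cast hm0
    linarith
  refine lt_of_le_of_lt ?_ hroots'
  have hq : (97 / 100 : ℝ) ^ (m + 1) ≤ 1 / (56 * κ) :=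
    (pow_le_pow_of_le_one (by norm_num) (by norm_num) (Nat.le_succ m)).trans hm.le
  clear hroots' hroots hm0 hN hb hm
  have hA : (0 : ℝ) < 4 ^ (48 * (m + 1)) := by positivity
  generalize (4 : ℝ) ^ (48 * (m + 1)) = A at hN' hA ⊢
  generalize (97 / 100 : ℝ) ^ (m + 1) = q at hN' hq
  calc κ * ((∑ i, (g i).support.card : ℕ) : ℝ)
      ≤ κ * (28 * q * A) := mul_le_mul_of_nonneg_left hN' hκ.le
    _ ≤ κ * (28 * (1 / (56 * κ)) * A) := by
        apply mul_le_mul_of_nonneg_left _ hκ.le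
        apply mul_le_mul_of_nonneg_right _ hA.le
        linarith
    _ = A / 2 := by
        field_simp
        norm_num

end Pool.Agent.Pf72d10
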