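import Mathlib
import Pool.Agent.Lib.Pf72d10.Main

set_option autoImplicit false

open Polynomial Finset

namespace Pool.Agent.Pf72d10

/-- the part of the signed partial theta series with exponents in `[s, s + K)` -/
noncomputable def Blk (s K : ℕ) : ℝ[X] :=
  ∑ k ∈ range K, C ((-1) ^ (s + k) * (1 / 4 : ℝ) ^ ((s + k) ^ 2)) * X ^ (s + k)

lemma Blk_zero_left (K : ℕ) : Blk 0 K = F K := by
  unfold Blk F
  simp

lemma Blk_zero (s : ℕ) : Blk s 0 = 0 := by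
  unfold Blk; simp

lemma Blk_add (s a b : ℕ) : Blk s (a + b) = Blk s a + Blk (s + a) b := by
  unfold Blk
  rw [sum_range_add]
  congr 1
  apply sum_congr rfl
  intro k _
  rw [show s + (a + k) = s + a + k by ring]

noncomputable def P' (s : ℕ) {n : ℕ} (x : Fin n → Fin 2) : ℝ[X] :=
  C ((-1) ^ (s + ax x) * ((1 / 4 : ℝ) ^ (s ^ 2) * (1 / 4 : ℝ) ^ (2 * s * ax x)
    * ((1 / 4 : ℝ) ^ (ax x ^ 2))⁻¹)) * X ^ (s + ax x)

noncomputable def Q' (s : ℕ) {n : ℕ} (z : Fin n → Fin 2) : ℝ[X] :=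
  C ((1 / 4 : ℝ) ^ (4 * s * ax z) * (1 / 4 : ℝ) ^ (2 * ax z ^ 2)) * X ^ (2 * ax z)

lemma Blk_eq (s n : ℕ) : Blk s (4 ^ n)
    = ∑ x : Fin n → Fin 2, ∑ z : Fin n → Fin 2, C (T x z) * (P' s x * Q' s z) := by
  unfold Blk
  rw [sum_digits n (fun k => C ((-1) ^ (s + k) * (1 / 4 : ℝ) ^ ((s + k) ^ 2)) * X ^ (s + k))]
  apply sum_congr rfl; intro x _
  apply sum_congr rfl; intro z _
  change C ((-1) ^ (s + (ax x + 2 * ax z)) * (1 / 4 : ℝ) ^ ((s + (ax x + 2 * ax z)) ^ 2))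
    * X ^ (s + (ax x + 2 * ax z)) = _
  unfold P' Q' T
  generalize ax x = a
  generalize ax z = b
  have e1 : ((-1 : ℝ) ^ (s + (a + 2 * b)) * (1 / 4 : ℝ) ^ ((s + (a + 2 * b)) ^ 2))
      = (1 / 4 : ℝ) ^ (2 * (a + b) ^ 2) * ((-1) ^ (s + a) * ((1 / 4 : ℝ) ^ (s ^ 2)
        * (1 / 4 : ℝ) ^ (2 * s * a) * ((1 / 4 : ℝ) ^ (a ^ 2))⁻¹))
        * ((1 / 4 : ℝ) ^ (4 * s * b) * (1 / 4 : ℝ) ^ (2 * b ^ 2)) := by
    have h1 : (-1 : ℝ) ^ (s + (a + 2 * b)) = (-1) ^ (s + a) := by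
      rw [show s + (a + 2 * b) = s + a + 2 * b by ring, pow_add, pow_mul (-1 : ℝ) 2 b]; norm_num
    have h2 : (1 / 4 : ℝ) ^ ((s + (a + 2 * b)) ^ 2) * (1 / 4 : ℝ) ^ (a ^ 2)
        = (1 / 4 : ℝ) ^ (2 * (a + b) ^ 2) * ((1 / 4 : ℝ) ^ (s ^ 2) * (1 / 4 : ℝ) ^ (2 * s * a))
          * ((1 / 4 : ℝ) ^ (4 * s * b) * (1 / 4 : ℝ) ^ (2 * b ^ 2)) := by
      simp only [← pow_add]; congr 1; ring
    have h3 : ((1 / 4 : ℝ) ^ (a ^ 2)) ≠ 0 := by positivity
    rw [h1]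
    have h4 : (1 / 4 : ℝ) ^ ((s + (a + 2 * b)) ^ 2)
        = (1 / 4 : ℝ) ^ (2 * (a + b) ^ 2) * ((1 / 4 : ℝ) ^ (s ^ 2) * (1 / 4 : ℝ) ^ (2 * s * a))
          * ((1 / 4 : ℝ) ^ (4 * s * b) * (1 / 4 : ℝ) ^ (2 * b ^ 2)) * ((1 / 4 : ℝ) ^ (a ^ 2))⁻¹ := by
      rw [← h2, mul_assoc, mul_inv_cancel₀ h3, mul_one]
    rw [h4]; ring
  rw [e1, show s + (a + 2 * b) = (s + a) + 2 * b by ring]
  simp only [C_mul, pow_add]
  ring

/-- the explicit cost of a block of length `4 ^ (48 m)` -/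
def cost (m : ℕ) : ℕ :=
  24 * (univ.filter (fun W : Finset (Fin (48 * m)) => W.card ≤ 23 * m)).card * 2 ^ (48 * m)
      + 2 * 2 ^ (48 * m)
      + 2 * (univ.filter (fun p : (Fin (48 * m) → Fin 2) × (Fin (48 * m) → Fin 2) =>
          cnt p.1 p.2 ≤ 34 * m)).card

lemma Blk_cost (s m : ℕ) : HasCost (Blk s (4 ^ (48 * m))) (cost m) := by
  classical
  obtain ⟨u, v, u', v', M, hM, hT⟩ := nonrigid (23 * m)
    (fun y : Fin (48 * m) → Fin 3 => (1 / 4 : ℝ) ^ (2 * (∑ i, (y i : ℕ) * 4 ^ (i : ℕ)) ^ 2))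
    T T_eq
  rw [Blk_eq]
  have := cost_main (P' s) (Q' s) (fun x => card_support_C_mul_X_pow_le_one)
    (fun z => card_support_C_mul_X_pow_le_one) _ u v u' v' M T
    (univ.filter (fun p : (Fin (48 * m) → Fin 2) × (Fin (48 * m) → Fin 2) => cnt p.1 p.2 ≤ 34 * m))
    (by
      intro x z hxz
      have := hM x z hxz
      simp only [mem_filter, mem_univ, true_and]
      omega) hT
  refine this.mono ?_
  unfold cost
  rw [card_product]
  simp only [card_univ, Fintype.card_fin, Fintype.card_pi, prod_const]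
  apply le_of_eq
  ring

lemma Blk_cost_mul (s m q : ℕ) : HasCost (Blk s (q * 4 ^ (48 * m))) (q * cost m) := by
  induction q generalizing s with
  | zero => simpa [Blk_zero] using HasCost.zero
  | succ q ih =>
    rw [add_mul, one_mul, Blk_add, add_mul, one_mul]
    exact (ih s).add (Blk_cost _ m)

lemma Blk_cost_any (m : ℕ) : ∀ s N : ℕ, N < 4 ^ (48 * m) →
    HasCost (Blk s N) (∑ j ∈ range m, 4 ^ 48 * cost j) := by
  induction m with
  | zero =>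
    intro s N hN
    have : N = 0 := by simpa using hN
    subst this
    simpa [Blk_zero] using HasCost.zero
  | succ m ih =>
    intro s N hN
    have hpos : 0 < 4 ^ (48 * m) := by positivity
    have hN' : N = N / 4 ^ (48 * m) * 4 ^ (48 * m) + N % 4 ^ (48 * m) := by
      rw [mul_comm]; exact (Nat.div_add_mod N _).symm
    have hq : N / 4 ^ (48 * m) < 4 ^ 48 := by
      rw [Nat.div_lt_iff_lt_mul hpos, ← pow_add]
      rwa [show 48 + 48 * m = 48 * (m + 1) by ring]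
    rw [hN', Blk_add, sum_range_succ, add_comm (∑ j ∈ range m, 4 ^ 48 * cost j)]
    refine HasCost.add ((Blk_cost_mul s m _).mono (Nat.mul_le_mul_right _ hq.le)) ?_
    exact ih _ _ (Nat.mod_lt _ hpos)

lemma num4 : (97 / 100 : ℝ) ^ 275 * 2 ^ 12 ≤ 1 := by
  have h1 : (97 / 100 : ℝ) ^ 25 ≤ 467 / 1000 := by norm_num
  have h2 : ((97 / 100 : ℝ) ^ 25) ^ 11 ≤ (467 / 1000) ^ 11 :=
    pow_le_pow_left₀ (by positivity) h1 11
  have h3 : (467 / 1000 : ℝ) ^ 11 * 2 ^ 12 ≤ 1 := by norm_num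
  rw [show 275 = 25 * 11 by norm_num, pow_mul]
  exact (mul_le_mul_of_nonneg_right h2 (by positivity)).trans h3

/-- every initial piece of length `N ≥ 1` -/
lemma F_cost_power (N : ℕ) (hN : 1 ≤ N) : ∃ S : ℕ, HasCost (F N) S ∧
    (S : ℝ) ≤ 28 * 4 ^ 96 * (N : ℝ) ^ (1 - 1 / 2200 : ℝ) := by
  set m := Nat.log (4 ^ 48) N with hm
  have h1 : (4 ^ 48) ^ m ≤ N := Nat.pow_log_le_self _ (by omega)
  have h2 : N < (4 ^ 48) ^ (m + 1) := Nat.lt_pow_succ_log_self (by norm_num) N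
  have h2' : N < 4 ^ (48 * (m + 1)) := by rwa [pow_mul]
  refine ⟨_, by rw [← Blk_zero_left]; exact Blk_cost_any (m + 1) 0 N h2', ?_⟩
  simp only [Nat.cast_sum, Nat.cast_mul, Nat.cast_pow, Nat.cast_ofNat]
  set ρ : ℝ := 97 / 100 * 4 ^ 48 with hρ
  have hρ2 : 2 ≤ ρ := by rw [hρ]; norm_num
  have hc : ∀ j : ℕ, (cost j : ℝ) ≤ 28 * ρ ^ j := by
    intro j
    have := total_bound j
    unfold cost
    refine this.trans (le_of_eq ?_)
    rw [hρ, mul_pow, ← pow_mul, mul_assoc]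
  have hgeo : ∀ n : ℕ, ∑ j ∈ range n, ρ ^ j ≤ ρ ^ n := by
    intro n
    induction n with
    | zero => simp
    | succ n ih =>
      rw [sum_range_succ, pow_succ]
      have : 0 < ρ ^ n := by positivity
      nlinarith
  have hsum : ∑ j ∈ range (m + 1), (4 : ℝ) ^ 48 * (cost j : ℝ) ≤ 4 ^ 48 * (28 * ρ ^ (m + 1)) := by
    rw [← mul_sum]
    apply mul_le_mul_of_nonneg_left _ (by positivity)
    calc ∑ j ∈ range (m + 1), (cost j : ℝ) ≤ ∑ j ∈ range (m + 1), 28 * ρ ^ j :=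
          sum_le_sum (fun j _ => hc j)
      _ = 28 * ∑ j ∈ range (m + 1), ρ ^ j := by rw [mul_sum]
      _ ≤ _ := mul_le_mul_of_nonneg_left (hgeo _) (by norm_num)
  refine hsum.trans ?_
  have hρ1 : ρ ≤ ((4 : ℝ) ^ 48) ^ (1 - 1 / 2200 : ℝ) := by
    have hk : ((97 : ℝ) / 100) ≤ ((2 : ℝ) ^ (96 : ℝ)) ^ (-(1 / 2200) : ℝ) := by
      rw [← Real.rpow_mul (by norm_num)]
      have e : (97 / 100 : ℝ) = ((97 / 100 : ℝ) ^ (275 : ℝ)) ^ (1 / 275 : ℝ) := by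
        rw [← Real.rpow_mul (by norm_num)]; norm_num
      have e2 : (2 : ℝ) ^ ((96 : ℝ) * -(1 / 2200)) = ((2 : ℝ) ^ (-12 : ℝ)) ^ (1 / 275 : ℝ) := by
        rw [← Real.rpow_mul (by norm_num)]; norm_num
      rw [e, e2]
      apply Real.rpow_le_rpow (by positivity) _ (by norm_num)
      rw [Real.rpow_neg (by norm_num), show (275 : ℝ) = ((275 : ℕ) : ℝ) by norm_num,
        show (12 : ℝ) = ((12 : ℕ) : ℝ) by norm_num, Real.rpow_natCast, Real.rpow_natCast,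
        le_inv_comm₀ (by positivity) (by positivity)]
      rw [← one_div, le_div_iff₀ (by positivity), mul_comm]
      exact num4
    have e3 : ((4 : ℝ) ^ 48) ^ (1 - 1 / 2200 : ℝ)
        = ((2 : ℝ) ^ (96 : ℝ)) ^ (-(1 / 2200) : ℝ) * 4 ^ 48 := by
      have e4 : (4 : ℝ) ^ 48 = (2 : ℝ) ^ (96 : ℝ) := by
        rw [show (96 : ℝ) = ((96 : ℕ) : ℝ) by norm_num, Real.rpow_natCast]; norm_num
      rw [e4]
      rw [show (1 - 1 / 2200 : ℝ) = -(1 / 2200) + 1 by ring, Real.rpow_add (by positivity),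
        Real.rpow_one]
    rw [e3, hρ]
    exact mul_le_mul_of_nonneg_right hk (by positivity)
  have hρm : ρ ^ m ≤ (N : ℝ) ^ (1 - 1 / 2200 : ℝ) := by
    calc ρ ^ m ≤ (((4 : ℝ) ^ 48) ^ (1 - 1 / 2200 : ℝ)) ^ m := by
          apply pow_le_pow_left₀ (by positivity) hρ1
      _ = (((4 : ℝ) ^ 48) ^ m) ^ (1 - 1 / 2200 : ℝ) := by
          rw [← Real.rpow_natCast, ← Real.rpow_mul (by positivity), mul_comm,
            Real.rpow_mul (by positivity), Real.rpow_natCast]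
      _ ≤ _ := by
          apply Real.rpow_le_rpow (by positivity) _ (by norm_num)
          exact_mod_cast h1
  have hρle : ρ ≤ 4 ^ 48 := by rw [hρ]; norm_num
  have hNpos : (0 : ℝ) ≤ (N : ℝ) ^ (1 - 1 / 2200 : ℝ) := by positivity
  calc (4 : ℝ) ^ 48 * (28 * ρ ^ (m + 1)) = 4 ^ 48 * 28 * (ρ ^ m * ρ) := by rw [pow_succ]; ring
    _ ≤ 4 ^ 48 * 28 * ((N : ℝ) ^ (1 - 1 / 2200 : ℝ) * 4 ^ 48) := by
        apply mul_le_mul_of_nonneg_left _ (by positivity)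
        exact mul_le_mul hρm hρle (by positivity) hNpos
    _ = _ := by ring

lemma F_natDegree_le (d : ℕ) : (F (d + 1)).natDegree ≤ d := by
  unfold F
  refine natDegree_sum_le_of_forall_le _ _ ?_
  intro k hk
  refine (natDegree_C_mul_X_pow_le _ _).trans ?_
  have := mem_range.mp hk
  omega

lemma F_degree_roots (d : ℕ) :
    (F (d + 1)).natDegree = d ∧ (F (d + 1)).roots.toFinset.card = d := by
  have h1 := F_roots (d + 1)
  have h2 := F_natDegree_le d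
  have h3 : (F (d + 1)).roots.toFinset.card ≤ (F (d + 1)).natDegree :=
    (Multiset.toFinset_card_le _).trans (card_roots' _)
  omega

end Pool.Agent.Pf72d10
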